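import Pool.Agent.Mg.Fef387b.Gb74a23

/-!
The involution `351624` answers the question in the negative: its stable orthogonal Grothendieck
function exists and is not a finite `ℕ[β]`-linear combination of the functions `GQ_λ`.
-/

namespace Pool.Agent.Results.MP_ef387b_co.Counterexample

open Pool.Agent.MP_ef387b_co

theorem result : z351624⁻¹ = z351624 ∧
    ∃ G : (m : ℕ) → MvPolynomial (Fin (m + 6)) (Polynomial ℤ),
      (∀ m G', IsOrthGroth (oneTimes m z351624) G' ↔ G' = G m) ∧
      ∃ F : MvPowerSeries ℕ (Polynomial ℤ), IsStableLimit G F ∧ ¬ InGQSpan F := by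
  refine ⟨by decide, fun m => Gz (oneTimes m z351624), fun m G' => isOrthGroth_iff _ G', ?_⟩
  obtain ⟨M0, hM⟩ := exists_cod_const z351624
  obtain ⟨F, hF⟩ := exists_limit z351624 hM
  refine ⟨F, fun α j => ⟨M0 + α.support.sup fun i => i + 1, fun m hm => ?_⟩, not_inGQSpan hF⟩
  rw [hF α _ (fun i hi => Finset.le_sup (f := fun i => i + 1) hi) m hm]

end Pool.Agent.Results.MP_ef387b_co.Counterexample
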