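import Pool.Agent.Mg.Fef387b.Gb74a23

/-!
The stable limit of the orthogonal Grothendieck polynomials exists for every involution.
-/

namespace Pool.Agent.Results.MP_ef387b_co.StableLimitExists

open Pool.Agent.MP_ef387b_co

theorem result (n : ℕ) (z : Equiv.Perm (Fin n)) (_hz : z⁻¹ = z) :
    ∃ G : (m : ℕ) → MvPolynomial (Fin (m + n)) (Polynomial ℤ),
      (∀ m G', IsOrthGroth (oneTimes m z) G' ↔ G' = G m) ∧
      ∃ F : MvPowerSeries ℕ (Polynomial ℤ), IsStableLimit G F := by
  refine ⟨fun m => Gz (oneTimes m z), fun m G' => isOrthGroth_iff _ G', ?_⟩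
  obtain ⟨M0, hM⟩ := exists_cod_const z
  obtain ⟨F, hF⟩ := exists_limit z hM
  refine ⟨F, fun α j => ⟨M0 + α.support.sup fun i => i + 1, fun m hm => ?_⟩⟩
  rw [hF α _ (fun i hi => Finset.le_sup (f := fun i => i + 1) hi) m hm]

end Pool.Agent.Results.MP_ef387b_co.StableLimitExists
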